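import Pool.Agent.R615.CL.Final

set_option autoImplicit false

/-!
# A stable continuous theory without enough distance definable sets

The definitions of continuous first-order logic used in the statement (signatures, metric
structures, formulas, theories, types, distance definable sets, stability) are in
`Pool/Agent/R615/CL/Defs.lean`.

The theory is the complete theory of the set `[0,1] × ℕ` with the discrete metric and the unary
predicate `P(r,n) = r`. In its models the only non-empty subset (of the home sort) that is distance
definable without parameters is the whole model, but there are many `1`-types over the empty set.
-/

open scoped Cardinal

namespace Pool.Agent.Results.MP_cc3859_lc.StableNotEnough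

open Pool.Agent.R615.CL

/-- There is a complete continuous theory `T` that is stable (no formula has the order property, and
`T` is even `κ`-stable for every `κ` that is at least the continuum, so `T` is superstable) and that
does not have enough distance definable sets. -/
theorem result : ∃ (L : Signature) (T : Set (Formula L 0)), IsComplete T ∧ IsStable T ∧
    (∀ κ : Cardinal.{0}, 𝔠 ≤ κ → StableIn T κ) ∧ ¬ HasEnough T :=
  ⟨L0, T0, complete_T0, stable_T0, stableIn_T0, not_hasEnough_T0⟩

end Pool.Agent.Results.MP_cc3859_lc.StableNotEnough
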